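import Mathlib.Analysis.InnerProductSpace.LinearPMap
import Pool.Agent.Helper17_Anderson.Defs

/-!
# SPX (MP_1906c1_mp): the literal spectral theory of the final hand-in, definitions

`L2 d = lp (fun _ : Fin d → ℤ => ℂ) 2`, `lap` the sum over the nearest neighbours.
-/

set_option autoImplicit false

open MeasureTheory ProbabilityTheory

open scoped InnerProductSpace ENNReal

noncomputable section

namespace Pool.Agent.SPX

open Pool.Agent.Anderson

variable {d : ℕ}

theorem lap_add' (u v : Site d → ℂ) (x : Site d) : lap (u + v) x = lap u x + lap v x := by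
  unfold lap
  rw [← Finset.sum_add_distrib]
  refine Finset.sum_congr rfl fun i _ => ?_
  simp only [Pi.add_apply]
  ring

theorem lap_smul' (c : ℂ) (u : Site d → ℂ) (x : Site d) : lap (c • u) x = c * lap u x := by
  unfold lap
  rw [Finset.mul_sum]
  refine Finset.sum_congr rfl fun i _ => ?_
  simp only [Pi.smul_apply, smul_eq_mul]
  ring

/-- The Hamiltonian `H = Δ + V` as an unbounded operator on `ℓ²(ℤ^d)`. Its domain is the set of all
`u ∈ ℓ²(ℤ^d)` with `Δ u + V u ∈ ℓ²(ℤ^d)`. -/
def ham (V : Site d → ℝ) : L2 d →ₗ.[ℂ] L2 d where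
  domain :=
    { carrier := {u | Memℓp (fun x => lap u x + (V x : ℂ) * u x) 2}
      add_mem' := fun {u v} hu hv => by
        have h : (fun x => lap (u + v : L2 d) x + (V x : ℂ) * (u + v : L2 d) x) =
            (fun x => lap u x + (V x : ℂ) * u x) + fun x => lap v x + (V x : ℂ) * v x := by
          funext x
          simp only [lp.coeFn_add, lap_add', Pi.add_apply]
          ring
        show Memℓp (fun x => lap (u + v : L2 d) x + (V x : ℂ) * (u + v : L2 d) x) 2
        rw [h]
        exact Memℓp.add hu hv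
      zero_mem' := by
        have h : (fun x => lap (0 : L2 d) x + (V x : ℂ) * (0 : L2 d) x) = 0 := by
          funext x
          simp [lap]
        show Memℓp (fun x => lap (0 : L2 d) x + (V x : ℂ) * (0 : L2 d) x) 2
        rw [h]
        exact zero_memℓp
      smul_mem' := fun c {u} hu => by
        have h : (fun x => lap (c • u : L2 d) x + (V x : ℂ) * (c • u : L2 d) x) =
            c • fun x => lap u x + (V x : ℂ) * u x := by
          funext x
          simp only [lp.coeFn_smul, lap_smul', Pi.smul_apply, smul_eq_mul]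
          ring
        show Memℓp (fun x => lap (c • u : L2 d) x + (V x : ℂ) * (c • u : L2 d) x) 2
        rw [h]
        exact Memℓp.const_smul hu c }
  toFun :=
    { toFun := fun u => ⟨fun x => lap (u : L2 d) x + (V x : ℂ) * (u : L2 d) x, u.2⟩
      map_add' := fun u v => by
        ext x
        simp only [Submodule.coe_add, lp.coeFn_add, lap_add', Pi.add_apply]
        ring
      map_smul' := fun c u => by
        ext x
        simp only [Submodule.coe_smul, lp.coeFn_smul, lap_smul', Pi.smul_apply, smul_eq_mul,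
          RingHom.id_apply]
        ring }

/-- The spectrum of the (unbounded) operator `A`: the set of all complex numbers `z` such that `A - z`
is not a bijection of the domain of `A` onto `ℓ²(ℤ^d)`. -/
def spectrumOf (A : L2 d →ₗ.[ℂ] L2 d) : Set ℂ :=
  {z | ¬ Function.Bijective fun u : A.domain => A u - z • (u : L2 d)}

/-- `u` is an eigenvector of `A` with the eigenvalue `E`. -/
def IsEigenvector (A : L2 d →ₗ.[ℂ] L2 d) (E : ℝ) (u : L2 d) : Prop :=
  u ≠ 0 ∧ ∃ h : u ∈ A.domain, A ⟨u, h⟩ = (E : ℂ) • u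

/-- `μ` is the spectral measure of the vector `u` for the self-adjoint operator `A`: `μ` is a finite
measure on the line and `⟨u, (A - z)⁻¹ u⟩ = ∫ (E - z)⁻¹ dμ(E)` for all `z` off the line. -/
def IsSpectralMeasure (A : L2 d →ₗ.[ℂ] L2 d) (u : L2 d) (μ : Measure ℝ) : Prop :=
  IsFiniteMeasure μ ∧ ∀ (z : ℂ) (v : A.domain), z.im ≠ 0 → A v - z • (v : L2 d) = u →
    ⟪u, (v : L2 d)⟫_ℂ = ∫ E : ℝ, ((E : ℂ) - z)⁻¹ ∂μ

/-- The spectrum of `A` in `I` is pure point: the restriction to `I` of every spectral measure is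
carried by a countable set. -/
def PurePointIn (A : L2 d →ₗ.[ℂ] L2 d) (I : Set ℝ) : Prop :=
  ∀ (u : L2 d) (μ : Measure ℝ), IsSpectralMeasure A u μ →
    ∃ S : Set ℝ, S.Countable ∧ μ (I \ S) = 0

/-- `A` has continuous spectrum in `I`: the spectral projection of `A` onto `I` is nonzero (some
spectral measure does not vanish on `I`) and it has no point part (no spectral measure has an atom
in `I`). -/
def ContinuousIn (A : L2 d →ₗ.[ℂ] L2 d) (I : Set ℝ) : Prop :=
  (∃ (u : L2 d) (μ : Measure ℝ), IsSpectralMeasure A u μ ∧ μ I ≠ 0) ∧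
  ∀ (u : L2 d) (μ : Measure ℝ), IsSpectralMeasure A u μ → ∀ E ∈ I, μ {E} = 0

/-- `H = Δ + V` is exponentially localized in `I`: the spectrum in `I` is pure point and every
eigenvector with an eigenvalue in `I` decays exponentially; `‖x‖` is the maximum of the `|x i|`. -/
def LocalizedIn (V : Site d → ℝ) (I : Set ℝ) : Prop :=
  PurePointIn (ham V) I ∧ ∀ E ∈ I, ∀ u : L2 d, IsEigenvector (ham V) E u →
    ∃ m C : ℝ, 0 < m ∧ ∀ x, ‖u x‖ ≤ C * Real.exp (-m * ‖x‖)

/-- Almost surely `p V` holds for the potential `V = σ ξ`, `ξ(y)`, `y ∈ ℤ^d`, independent standard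
Gaussians (on any probability space). -/
def Almost.{v} (d : ℕ) (σ : ℝ) (p : (Site d → ℝ) → Prop) : Prop :=
  ∀ (Ω : Type v) [MeasurableSpace Ω] (P : Measure Ω) [IsProbabilityMeasure P]
    (ξ : Site d → Ω → ℝ), (∀ y, Measurable (ξ y)) → (∀ y, P.map (ξ y) = gaussianReal 0 1) →
    iIndepFun ξ P → ∀ᵐ ω ∂P, p fun x => σ * ξ x ω

end Pool.Agent.SPX
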