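import Pool.Agent.SPX.Defs
import Pool.Agent.LE.StmtsH
import Pool.Agent.Helper54_EXT.Phase

/-!
# SPX (MP_1906c1_mp): the literal spectral theory of the final hand-in, statements of the rows

`G V z = (H - z)⁻¹` bounded on `ℓ²(ℤ^d)`, `IsRes (G V)` (`isRes_G`: `ident`, `adj`, `inj`, `im_inner`:
`Im ⟨f, G f⟩ = Im z ‖G f‖²`, `norm_le`, `dense_range`), `G_eq`, `G_unique`; `wt V S η u =
∫⁻ E in S, η/π ‖G V (E + i η) u‖²`, `Cpl`, `CplJ`, `Orth` (`LE/StmtsH.lean`). Landed, to be cited: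
`wtaT wtlT wteT fvgT wtqT wtsT limT` (namespace `Pool.Agent.LE.CH.H93`), `Pool.Agent.LE.CH.H81.wtc`,
`integral_poisson` (`Helper54_Ballistic/Int.lean`).
-/

set_option autoImplicit false

open MeasureTheory ProbabilityTheory Filter

open scoped InnerProductSpace ENNReal Topology ComplexConjugate

noncomputable section

namespace Pool.Agent.SPX

open Pool.Agent.Anderson Pool.Agent.Loc Pool.Agent.Helper54.Bal Pool.Agent.LE.CH
open Pool.Agent.EXT.H54 (InSpec NoEv)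

variable {d : ℕ}

/-- `μ` is the spectral measure of `u`, in terms of `G`. -/
def SpecM (V : Site d → ℝ) (u : L2 d) (μ : Measure ℝ) : Prop :=
  IsFiniteMeasure μ ∧ ∀ z : ℂ, z.im ≠ 0 → ⟪u, G V z u⟫_ℂ = ∫ E : ℝ, ((E : ℂ) - z)⁻¹ ∂μ

/-- DOM: the domain, and the resolvent of `ham V`. Proof: `G_eq`, `G_unique`. -/
def DomStmt : Prop :=
  ∀ (d : ℕ) (V : Site d → ℝ) (z : ℂ), z.im ≠ 0 →
    (∀ u : L2 d, ∃ h : G V z u ∈ (ham V).domain, ham V ⟨G V z u, h⟩ = u + z • G V z u) ∧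
    (∀ v : (ham V).domain, G V z (ham V v - z • (v : L2 d)) = v)

/-- SMI: the two forms of the spectral measure. Proof: `DomStmt`. -/
def SmiStmt : Prop :=
  ∀ (d : ℕ) (V : Site d → ℝ) (u : L2 d) (μ : Measure ℝ),
    IsSpectralMeasure (ham V) u μ ↔ SpecM V u μ

/-- SAJ: `ham V` is self-adjoint (`LinearPMap.isSelfAdjoint_def`, `LinearPMap.adjoint`). Proof, from
`DomStmt`. The domain contains the range of `G V i`, which is dense (`IsRes.dense_range`). Symmetry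
(`IsFormalAdjoint`): with `f = H u - z u`, `g = H v - conj z v` (`z = i`), `u = G V z f`,
`v = G V (conj z) g`, so `⟪H u, v⟫ = ⟪f, v⟫ + conj z ⟪u, v⟫`, `⟪u, H v⟫ = ⟪u, g⟫ + conj z ⟪u, v⟫` and
`⟪f, v⟫ = ⟪f, G V (conj z) g⟫ = ⟪G V z f, g⟫ = ⟪u, g⟫`. So `ham V ≤ (ham V)†`. Conversely let `y` be in
the domain of `(ham V)†`, `w = (ham V)† y`, `u = G V z (w - z y)`. For all `v` in the domain of
`ham V`: `⟪y, H v - conj z v⟫ = ⟪w - z y, v⟫ = ⟪H u - z u, v⟫ = ⟪u, H v - conj z v⟫`, and `H v - conj z v`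
is arbitrary (`v = G V (conj z) g`), so `y = u` is in the domain. -/
def SajStmt : Prop :=
  ∀ (d : ℕ) (V : Site d → ℝ), IsSelfAdjoint (ham V)

/-- EXM: existence of the spectral measure. Proof: `Helper83_QE/Spec.lean`, `spec`, with `del x`
replaced by `u` (`exists_measure_cfc U hUn u` is general). -/
def ExmStmt : Prop :=
  ∀ (d : ℕ) (V : Site d → ℝ) (u : L2 d), ∃ μ : Measure ℝ, SpecM V u μ

/-- UNM: a finite measure is determined by its Stieltjes transform. Proof: for `f` bounded continuous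
real valued on the line, `z = E + i η`, `Im ((t - z)⁻¹) = η / ((t - E)² + η²)`, so by Fubini
`∫ (∫ f(E) η / ((t - E)² + η²) dE) dμ(t) = ∫ f(E) Im (∫ (t - z)⁻¹ dμ(t)) dE` is the same for `μ` and
`ν`. The inner integral is `∫ f(t + η y) (1 + y²)⁻¹ dy → π f(t)`, bounded by `π sup |f|`, as `η → 0`
(dominated convergence), and so `∫ f dμ = ∫ f dν`. `ext_of_forall_integral_eq_of_IsFiniteMeasure`. -/
def UnmStmt : Prop :=
  ∀ μ ν : Measure ℝ, IsFiniteMeasure μ → IsFiniteMeasure ν →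
    (∀ z : ℂ, z.im ≠ 0 → ∫ E : ℝ, ((E : ℂ) - z)⁻¹ ∂μ = ∫ E : ℝ, ((E : ℂ) - z)⁻¹ ∂ν) → μ = ν

/-- WTB: `wt` and the spectral measure. Proof: `η ‖G V z u‖² = Im ⟪u, G V z u⟫` (`im_inner`), the
imaginary part of `SpecM`, Tonelli (`lintegral_lintegral_swap`), `z = zz η E`. -/
def WtbStmt : Prop :=
  ∀ (d : ℕ) (V : Site d → ℝ) (u : L2 d) (μ : Measure ℝ) (S : Set ℝ) (η : ℝ), SpecM V u μ → 0 < η →
    MeasurableSet S →
    wt V S η u = ∫⁻ t, (∫⁻ E in S, ENNReal.ofReal (η / Real.pi / ((E - t) ^ 2 + η ^ 2))) ∂μ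

/-- OPN: open sets, closed sets. Proof: `WtbStmt`. For every `t` the inner integral over the whole line
is `1` (`integral_poisson`). (1) `S` open, `t ∈ S`: the inner integral tends to `1` as `η → 0` (it is
at least the integral over `|E - t| < s`, `(2 / π) arctan (s / η)`); Fatou along any sequence `η → 0`.
(2) `S` closed, `μ S = 0`: for `t ∉ S` the inner integral over `S` tends to `0` (it is at most the
integral over `|E - t| ≥ s`); dominated convergence, the bound is `1`. -/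
def OpnStmt : Prop :=
  ∀ (d : ℕ) (V : Site d → ℝ) (u : L2 d) (μ : Measure ℝ) (S : Set ℝ), SpecM V u μ →
    (∀ ε : ℝ≥0∞, IsOpen S → (∃ᶠ η in 𝓝[>] (0 : ℝ), wt V S η u ≤ ε) → μ S ≤ ε) ∧
    (IsClosed S → μ S = 0 → Tendsto (fun η : ℝ => wt V S η u) (𝓝[>] 0) (𝓝 0))

/-- PAR: algebra of the spectral measures. Proof: (1) `⟪u + v, G (u + v)⟫ + ⟪u - v, G (u - v)⟫ =
2 ⟪u, G u⟫ + 2 ⟪v, G v⟫`, so by `ExmStmt` (for `u - v`) and `UnmStmt`, `μ_{u+v} + μ_{u-v} =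
2 μ_u + 2 μ_v` as measures. (2) `UnmStmt`. (3) `UnmStmt`: for an eigenfunction
`G V z φ = (E₀ - z)⁻¹ φ` (`G_unique`). (4) `η Im ⟪u, G V (i η) u⟫ = ∫ η² / (t² + η²) dμ(t) → μ univ` as
`η → ∞` (dominated convergence), and it is at most `‖u‖²` (`norm_le`). -/
def ParStmt : Prop :=
  ∀ (d : ℕ) (V : Site d → ℝ) (u : L2 d) (μ : Measure ℝ), SpecM V u μ →
    (∀ (v : L2 d) (ν ρ : Measure ℝ) (S : Set ℝ), SpecM V v ν → SpecM V (u + v) ρ →
      ρ S ≤ 2 * μ S + 2 * ν S) ∧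
    (∀ (c : ℂ) (ρ : Measure ℝ), SpecM V (c • u) ρ → ρ = ENNReal.ofReal (‖c‖ ^ 2) • μ) ∧
    (∀ E₀ : ℝ, IsEigen V E₀ u → μ {E₀}ᶜ = 0) ∧
    μ Set.univ ≤ ENNReal.ofReal (‖u‖ ^ 2)

/-- ATM: an atom of a spectral measure is an eigenvalue. Proof: `f_η = -i η G V (E + i η) u`. For
`η, η' > 0`, `z = E + i η`, `w = E + i η'`: `⟪G z u, G w u⟫ = ⟪u, G (conj z) (G w u)⟫ =
(conj z - w)⁻¹ (⟪u, G (conj z) u⟫ - ⟪u, G w u⟫) = ∫ ((t - conj z) (t - w))⁻¹ dμ` (`ident`), so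
`⟪f_η, f_η'⟫ = ∫ η η' / ((t - E + i η) (t - E - i η')) dμ(t) → μ {E}` as `η, η' → 0` (dominated
convergence, bound `1`; the integrand is `1` for `t = E`). So `‖f_η - f_η'‖² → 0`: `f_η` converges in
`ℓ²` to some `φ` along `η = 1 / (n + 1)`. `H f_η = E f_η + i η f_η - i η u` (`G_eq`) gives `IsEigen V E
φ` pointwise, and `⟪u, f_η⟫ = ∫ -i η / (t - E - i η) dμ → μ {E}`. -/
def AtmStmt : Prop :=
  ∀ (d : ℕ) (V : Site d → ℝ) (u : L2 d) (μ : Measure ℝ) (E : ℝ), SpecM V u μ → μ {E} ≠ 0 →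
    ∃ φ : L2 d, IsEigen V E φ ∧ ⟪φ, u⟫_ℂ ≠ 0

/-- PPT: complete eigenfunctions imply pure point spectrum. Proof: `M` the closure of the span of all
`φ` with `IsEigen V E₀ φ` for some `E₀`; `u = m + v`, `m ∈ M`, `v ∈ Mᗮ`. (a) A finite combination of
eigenfunctions has a spectral measure carried by a finite set (`ParStmt` (1), (2), (3), induction);
`m` is a limit of such `m_k`, and `μ_m (Sᶜ) ≤ 2 μ_{m_k} (Sᶜ) + 2 ‖m - m_k‖²` with `S` the union of the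
finite sets, so `μ_m (Sᶜ) = 0`. (b) Let `a ∈ O`, `[a - r, a + r] ⊆ O`: by `H81.wtc`,
`‖G V (zz η E) v‖ ≤ (4 / r) ‖v‖` for `|E - a| ≤ r / 2`, so `wt V (Ioo (a - r / 2) (a + r / 2)) η v ≤
C η` and `μ_v` vanishes there (`OpnStmt` (1)); so `μ_v O = 0` (`measure_null_of_locally_null`). Now
`μ_u ≤ 2 μ_m + 2 μ_v`, and `I \ (S ∪ (I \ O)) ⊆ O \ S`. -/
def PptStmt : Prop :=
  ∀ (d : ℕ) (V : Site d → ℝ) (O I : Set ℝ), IsOpen O → Cpl V O → (I \ O).Countable →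
    PurePointIn (ham V) I

/-- PPC: the converse. Proof: let `[a - r, a + r] = J ⊆ I`, `Orth V J u`, `w = H u`, `μ` the spectral
measure of `u` (`ExmStmt`). By `AtmStmt` there is no atom in `J`, so with the countable `S`,
`μ J ≤ μ (I \ S) + μ (J ∩ S) = 0`, `wt V J η u → 0` (`OpnStmt` (2)); `H93.wtqT`, `η → 0` (if `r < 0`
there is nothing to prove). -/
def PpcStmt : Prop :=
  ∀ (d : ℕ) (V : Site d → ℝ) (I : Set ℝ), PurePointIn (ham V) I → Cpl V I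

/-- NZR: Weyl vectors near one energy. Proof: `[E - r, E + r] ⊆ I`, `u` a unit vector with
`‖(H - E) u‖ ≤ r / 2` (from `InSpec`), `μ` its spectral measure. If `μ I = 0` then
`wt V [E - r, E + r] η u → 0` (`OpnStmt` (2)) and `H93.wtqT` with `a = E` gives `r² ≤ r² / 4`. -/
def NzrStmt : Prop :=
  ∀ (d : ℕ) (V : Site d → ℝ) (I : Set ℝ) (E r : ℝ), InSpec V {E} → 0 < r →
    Set.Icc (E - r) (E + r) ⊆ I → ∃ (u : L2 d) (μ : Measure ℝ), SpecM V u μ ∧ μ I ≠ 0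

/-- SPR: the spectrum of `ham V` is the line. Proof: `z.im ≠ 0`: `DomStmt`. `z = E` real, assume
that `H - E` is bijective, `B : ℓ² → ℓ²` the inverse, a linear map. Its graph is closed (limits in
`ℓ²` are pointwise limits), so it is continuous (`LinearMap.continuous_of_isClosed_graph`); for the
Weyl vectors `‖u‖ = 1 ≤ ‖B‖ ‖(H - E) u‖ ≤ ‖B‖ ε`. -/
def SprStmt : Prop :=
  ∀ (d : ℕ) (V : Site d → ℝ), InSpec V Set.univ →
    spectrumOf (ham V) = Set.range ((↑) : ℝ → ℂ)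

/-- EIG: eigenvectors; the distance. -/
def EigStmt : Prop :=
  ∀ (d : ℕ) (V : Site d → ℝ) (E : ℝ) (u : L2 d),
    (IsEigenvector (ham V) E u ↔ u ≠ 0 ∧ IsEigen V E u) ∧ ∀ x : Site d, ‖x‖ = (sd 0 x : ℝ)

end Pool.Agent.SPX
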